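import Pool.Agent.Work.MP_c348a7_pr.RegularLD

/-!
# Almost sure LD-convergence of random `Δ`-regular graphs for `Δ ≤ 2`
-/

namespace Pool.Agent.Results.MP_c348a7_pr.RegularAtMostTwo

open MeasureTheory Pool.Agent.Work.MP_c348a7_pr

/-- **Random regular graphs of degree at most two are LD-convergent.**  Let `Δ ≤ 2` and let
`N 0 < N 1 < ...` be numbers of vertices for which `Δ`-regular graphs exist.  A sequence of
independent uniformly random `Δ`-regular graphs on `N 0, N 1, ...` labelled vertices is
LD-convergent with probability one. -/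
theorem result (Δ : ℕ) (hΔ : Δ ≤ 2) (N : ℕ → ℕ) (hN : StrictMono N)
    (hne : ∀ n, (regularGraphs (N n) Δ).Nonempty) :
    ∀ᵐ G : (∀ n : ℕ, SimpleGraph (Fin (N n))) ∂(Measure.infinitePi fun n : ℕ =>
      uniformRegular (N n) Δ (hne n)), LDConvergent N G :=
  ae_ldConvergent_regular hΔ N hN hne

end Pool.Agent.Results.MP_c348a7_pr.RegularAtMostTwo
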