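import Pool.Agent.Work.MP_c348a7_pr.Main

/-!
# Almost sure LD-convergence of `G(n, c/n)` for all `0 < c ≤ 1`
-/

namespace Pool.Agent.Results.MP_c348a7_pr.UpToCritical

open MeasureTheory Pool.Agent.Work.MP_c348a7_pr

/-- **Subcritical and critical sparse random graphs are LD-convergent.**  For every `0 < c ≤ 1`, a
sequence of independent binomial random graphs `G(n, c/n)`, `n = 0, 1, 2, …` (the product measure
over `n`; the edge probability is `c / n`, truncated at `1`), is LD-convergent with probability
one. -/
theorem result (c : ℝ) (hc0 : 0 < c) (hc1 : c ≤ 1) :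
    ∀ᵐ G : (∀ n : ℕ, SimpleGraph (Fin n)) ∂(Measure.infinitePi fun n : ℕ =>
      SimpleGraph.binomialRandom (Fin n) (Set.projIcc (0 : ℝ) 1 zero_le_one (c / n))),
      LDConvergent (fun n => n) G :=
  ae_ldConvergent hc0 hc1

end Pool.Agent.Results.MP_c348a7_pr.UpToCritical
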